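import Pool.Agent.Y485.HS.Stm2

/-!
# Project HS: a group with a chart of exponential type is a Lie group (J19)
-/

set_option autoImplicit false
set_option linter.unusedSectionVars false

open Set Metric Filter Topology
open scoped Manifold ContDiff

noncomputable section

namespace Pool.Agent.Y286.HS

open Pool.Agent.Y485.HS

variable {G : Type} [Group G] [TopologicalSpace G] [IsTopologicalGroup G]

/-- transport of a chart of exponential type by a linear isomorphism -/
theorem transport {E F : Type} [NormedAddCommGroup E] [NormedSpace ℝ E]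
    [NormedAddCommGroup F] [NormedSpace ℝ F] (C : ExpChart G E) (L : E ≃L[ℝ] F) :
    Nonempty (ExpChart G F) := by
  have hc : Continuous (fun p : F × F => ((L.symm p.1, L.symm p.2) : E × E)) := by fun_prop
  have h0 : Tendsto (fun p : F × F => ((L.symm p.1, L.symm p.2) : E × E)) (𝓝 0)
      (𝓝 ((0 : E), (0 : E))) := by
    have := hc.tendsto (0 : F × F)
    simpa using this
  have h1 : ∀ᶠ p : F × F in 𝓝 0, ‖((L.symm p.1, L.symm p.2) : E × E)‖ < C.δ := by
    have h2 : ball (0 : E × E) C.δ ∈ 𝓝 ((0 : E), (0 : E)) := ball_mem_nhds _ C.pos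
    filter_upwards [h0 h2] with p hp
    simpa using hp
  obtain ⟨δ', hδ', hb⟩ := Metric.eventually_nhds_iff.mp h1
  have hL0 : Tendsto (fun a : F => L.symm a) (𝓝 0) (𝓝 0) := by
    have := L.symm.continuous.tendsto (0 : F)
    simpa using this
  have hk : ∀ u, (C.κ.trans L.toHomeomorph.toOpenPartialHomeomorph) u = L (C.κ u) := fun u => rfl
  have hks : ∀ a, (C.κ.trans L.toHomeomorph.toOpenPartialHomeomorph).symm a
      = C.κ.symm (L.symm a) := fun a => rfl
  exact ⟨{
    κ := C.κ.trans L.toHomeomorph.toOpenPartialHomeomorph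
    one_mem := by
      simpa using C.one_mem
    map_one := by
      rw [hk, C.map_one, map_zero]
    δ := δ'
    pos := hδ'
    mul := by
      intro p hp
      have h2 : ‖((L.symm p.1, L.symm p.2) : E × E)‖ < C.δ := hb (by simpa using hp)
      have h3 := C.mul _ h2
      have h4 : ContDiffAt ℝ ∞ (fun p : F × F => ((L.symm p.1, L.symm p.2) : E × E)) p := by
        fun_prop
      have h5 := h3.comp p h4
      have h6 := L.contDiff.contDiffAt.comp p h5
      exact h6
    inv := by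
      filter_upwards [hL0.eventually C.inv] with a ha
      rw [hks, hk, ha, map_neg, ContinuousLinearEquiv.apply_symm_apply]
    Ad := fun g => (L : E →L[ℝ] F).comp ((C.Ad g).comp (L.symm : F →L[ℝ] E))
    cnj := by
      intro g
      filter_upwards [hL0.eventually (C.cnj g)] with a ha
      rw [hks, hk, ha]
      rfl }⟩

/-- a group with a chart of exponential type is a Lie group, modelled on `E` -/
theorem exists_lieGroup {E : Type} [NormedAddCommGroup E] [NormedSpace ℝ E] (C : ExpChart G E) :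
    ∃ _ : ChartedSpace E G, LieGroup 𝓘(ℝ, E) ∞ G := by
  classical
  -- the neighbourhood
  have hs1 : C.κ.symm 0 = 1 := by rw [← C.map_one]; exact C.κ.left_inv C.one_mem
  have h0t : (0 : E) ∈ C.κ.target := by rw [← C.map_one]; exact C.κ.map_source C.one_mem
  let U0 : Set G := C.κ.source ∩ C.κ ⁻¹' ball 0 C.δ
  have hU0o : IsOpen U0 := C.κ.isOpen_inter_preimage isOpen_ball
  have h1U0 : (1 : G) ∈ U0 := ⟨C.one_mem, by
    change C.κ 1 ∈ ball 0 C.δ
    rw [C.map_one]; exact mem_ball_self C.pos⟩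
  have hdiv : Tendsto (fun p : G × G => p.1 * p.2⁻¹) (𝓝 (1, 1)) (𝓝 1) := by
    have : Continuous (fun p : G × G => p.1 * p.2⁻¹) := by fun_prop
    have h := this.tendsto (1, 1)
    simpa using h
  have hev := hdiv (hU0o.mem_nhds h1U0)
  rw [mem_map, mem_nhds_prod_iff'] at hev
  obtain ⟨A1, A2, hA1o, h1A1, hA2o, h1A2, hA⟩ := hev
  let O' : Set G := U0 ∩ (A1 ∩ A2)
  have hO'o : IsOpen O' := hU0o.inter (hA1o.inter hA2o)
  have h1O' : (1 : G) ∈ O' := ⟨h1U0, h1A1, h1A2⟩
  have hO'div : ∀ a ∈ O', ∀ b ∈ O', a * b⁻¹ ∈ U0 := by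
    intro a ha b hb
    exact hA (Set.mk_mem_prod ha.2.1 hb.2.2)
  let φ : OpenPartialHomeomorph G E := C.κ.restrOpen O' hO'o
  have hφ : ∀ u, φ u = C.κ u := fun u => rfl
  have hφs : ∀ a, φ.symm a = C.κ.symm a := fun a => rfl
  have hφsrc : ∀ u, u ∈ φ.source ↔ u ∈ O' := by
    intro u
    change u ∈ C.κ.source ∩ O' ↔ u ∈ O'
    exact ⟨fun h => h.2, fun h => ⟨h.1.1, h⟩⟩
  let ch : G → OpenPartialHomeomorph G E := fun g =>
    (Homeomorph.mulLeft g⁻¹).toOpenPartialHomeomorph.trans φ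
  have hch : ∀ g u, ch g u = C.κ (g⁻¹ * u) := fun g u => rfl
  have hchs : ∀ g a, (ch g).symm a = g * C.κ.symm a := by
    intro g a
    change (Homeomorph.mulLeft g⁻¹).symm (φ.symm a) = g * C.κ.symm a
    rw [hφs]
    simp [Homeomorph.mulLeft]
  have hsrc : ∀ g u, u ∈ (ch g).source ↔ g⁻¹ * u ∈ O' := by
    intro g u
    rw [← hφsrc]
    simp [ch]
  have hmem : ∀ g, g ∈ (ch g).source := by
    intro g
    rw [hsrc, inv_mul_cancel]
    exact h1O'
  have hch0 : ∀ g, ch g g = 0 := by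
    intro g
    rw [hch, inv_mul_cancel, C.map_one]
  let cs : ChartedSpace E G :=
    { atlas := Set.range ch
      chartAt := ch
      mem_chart_source := hmem
      chart_mem_atlas := fun g => ⟨g, rfl⟩ }
  refine ⟨cs, ?_⟩
  have hman : IsManifold 𝓘(ℝ, E) ∞ G := by
    apply isManifold_of_contDiffOn
    rintro _ _ ⟨g, rfl⟩ ⟨h, rfl⟩
    intro a ha
    apply ContDiffAt.contDiffWithinAt
    have h1 : a ∈ ((ch g).symm ≫ₕ ch h).source := ha.1
    rw [OpenPartialHomeomorph.trans_source] at h1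
    have hat : a ∈ (ch g).target := by simpa using h1.1
    have hsg : (ch g).symm a ∈ (ch g).source := (ch g).map_target hat
    have hX' : (ch g).symm a ∈ (ch h).source := h1.2
    rw [hsrc, hchs] at hsg hX'
    rw [inv_mul_cancel_left] at hsg
    -- the coordinate of `a`
    have hak : a ∈ C.κ.target := by
      have h2 : a ∈ (ch g).target := hat
      change a ∈ φ.target ∩ _ at h2
      exact h2.1.1
    have hka : C.κ (C.κ.symm a) = a := C.κ.right_inv hak
    have hna : ‖a‖ < C.δ := by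
      have := hsg.1.2
      change C.κ (C.κ.symm a) ∈ ball 0 C.δ at this
      rw [hka] at this
      simpa using this
    have hgh : h⁻¹ * g ∈ U0 := by
      have := hO'div _ hX' _ hsg
      have h3 : h⁻¹ * (g * C.κ.symm a) * (C.κ.symm a)⁻¹ = h⁻¹ * g := by group
      rwa [h3] at this
    set b : E := C.κ (h⁻¹ * g) with hb
    have hkb : C.κ.symm b = h⁻¹ * g := C.κ.left_inv hgh.1
    have hnb : ‖b‖ < C.δ := by
      have := hgh.2
      change C.κ (h⁻¹ * g) ∈ ball 0 C.δ at this
      simpa using this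
    have hfun : (𝓘(ℝ, E) ∘ (ch g).symm ≫ₕ ch h ∘ 𝓘(ℝ, E).symm : E → E) =
        fun a' : E => C.κ (C.κ.symm b * C.κ.symm a') := by
      funext a'
      change ch h ((ch g).symm a') = _
      rw [hchs, hch, ← mul_assoc, hkb]
    rw [hfun]
    have hn : ‖(b, a)‖ < C.δ := by
      rw [Prod.norm_def]
      exact max_lt hnb hna
    have h3 : ContDiffAt ℝ ∞ (fun a' : E => ((b, a') : E × E)) a := by fun_prop
    exact (C.mul (b, a) hn).comp a h3
  have hchsm : ∀ g, ContMDiffAt 𝓘(ℝ, E) 𝓘(ℝ, E) ∞ (ch g) g := fun g =>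
    contMDiffAt_of_mem_maximalAtlas (IsManifold.subset_maximalAtlas ⟨g, rfl⟩) (hmem g)
  -- elements near `g` are `g * κ.symm (ch g u)`
  have hrec : ∀ g, ∀ᶠ u in 𝓝 g, u = g * C.κ.symm (ch g u) := by
    intro g
    filter_upwards [(ch g).open_source.mem_nhds (hmem g)] with u hu
    rw [← hchs, (ch g).left_inv hu]
  have hcht : ∀ g, Tendsto (ch g) (𝓝 g) (𝓝 0) := by
    intro g
    have := (ch g).continuousAt (hmem g)
    rw [ContinuousAt, hch0] at this
    exact this
  have hsymt : Tendsto C.κ.symm (𝓝 0) (𝓝 1) := by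
    have := C.κ.symm.continuousAt (x := 0) (by simpa using h0t)
    rw [ContinuousAt, hs1] at this
    exact this
  -- conjugations in the chart
  have hcnj : ∀ g : G, ∀ᶠ a in 𝓝 (0 : E), g * C.κ.symm a * g⁻¹ = C.κ.symm (C.Ad g a) := by
    intro g
    have hc : Tendsto (fun a : E => g * C.κ.symm a * g⁻¹) (𝓝 0) (𝓝 1) := by
      have := (hsymt.const_mul g).mul_const g⁻¹
      simpa using this
    filter_upwards [C.cnj g, hc (C.κ.open_source.mem_nhds C.one_mem)] with a ha hs
    rw [← ha, C.κ.left_inv hs]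
  have hinv : ∀ᶠ a in 𝓝 (0 : E), (C.κ.symm a)⁻¹ = C.κ.symm (-a) := by
    have hc : Tendsto (fun a : E => (C.κ.symm a)⁻¹) (𝓝 0) (𝓝 1) := by
      have := hsymt.inv
      simpa using this
    filter_upwards [C.inv, hc (C.κ.open_source.mem_nhds C.one_mem)] with a ha hs
    rw [← ha, C.κ.left_inv hs]
  refine { toIsManifold := hman, contMDiff_mul := ?_, contMDiff_inv := ?_ }
  · rintro ⟨x, y⟩
    rw [contMDiffAt_iff_target]
    refine ⟨continuous_mul.continuousAt, ?_⟩
    -- the smooth model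
    have hM : ContDiffAt ℝ ∞ (fun q : E × E => C.κ (C.κ.symm (C.Ad y⁻¹ q.1) * C.κ.symm q.2))
        ((ch x x, ch y y) : E × E) := by
      rw [hch0, hch0]
      have h1 : ContDiffAt ℝ ∞ (fun q : E × E => ((C.Ad y⁻¹ q.1, q.2) : E × E)) (0, 0) := by
        fun_prop
      have h2 : ContDiffAt ℝ ∞ (fun q : E × E => C.κ (C.κ.symm q.1 * C.κ.symm q.2))
          ((fun q : E × E => ((C.Ad y⁻¹ q.1, q.2) : E × E)) (0, 0)) :=
        C.mul _ (by simpa using C.pos)
      have h3 : ContDiffAt ℝ ∞ ((fun q : E × E => C.κ (C.κ.symm q.1 * C.κ.symm q.2)) ∘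
          (fun q : E × E => ((C.Ad y⁻¹ q.1, q.2) : E × E))) (0, 0) := h2.comp (0, 0) h1
      exact h3
    have hpair : ContMDiffAt (𝓘(ℝ, E).prod 𝓘(ℝ, E)) 𝓘(ℝ, E × E) ∞
        (fun p : G × G => ((ch x p.1, ch y p.2) : E × E)) (x, y) := by
      refine ContMDiffAt.prodMk_space ?_ ?_
      · exact (hchsm x).comp (x, y) contMDiffAt_fst
      · exact (hchsm y).comp (x, y) contMDiffAt_snd
    have h3 := ContMDiffAt.comp (x, y) hM.contMDiffAt hpair
    refine h3.congr_of_eventuallyEq ?_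
    have e1 : ∀ᶠ p : G × G in 𝓝 (x, y), p.1 = x * C.κ.symm (ch x p.1) :=
      (continuous_fst.tendsto (x, y)).eventually (hrec x)
    have e2 : ∀ᶠ p : G × G in 𝓝 (x, y), p.2 = y * C.κ.symm (ch y p.2) :=
      (continuous_snd.tendsto (x, y)).eventually (hrec y)
    have e3 : ∀ᶠ p : G × G in 𝓝 (x, y),
        y⁻¹ * C.κ.symm (ch x p.1) * y⁻¹⁻¹ = C.κ.symm (C.Ad y⁻¹ (ch x p.1)) :=
      (((hcht x).comp (continuous_fst.tendsto (x, y)))).eventually (hcnj y⁻¹)
    filter_upwards [e1, e2, e3] with p h1 h2 h3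
    change C.κ ((x * y)⁻¹ * (p.1 * p.2)) = C.κ (C.κ.symm (C.Ad y⁻¹ (ch x p.1)) * C.κ.symm (ch y p.2))
    rw [← h3]
    congr 1
    conv_lhs => rw [h1, h2]
    group
  · intro x
    rw [contMDiffAt_iff_target]
    refine ⟨continuous_inv.continuousAt, ?_⟩
    have hM : ContDiffAt ℝ ∞ (fun a : E => C.Ad x (-a)) (ch x x) := by fun_prop
    have h3 := ContMDiffAt.comp x hM.contMDiffAt (hchsm x)
    refine h3.congr_of_eventuallyEq ?_
    have hneg : Tendsto (fun a : E => -a) (𝓝 0) (𝓝 0) := by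
      have := (continuous_neg (G := E)).tendsto 0
      simpa using this
    filter_upwards [hrec x, (hcht x).eventually hinv,
      ((hneg.comp (hcht x))).eventually (C.cnj x)] with u h1 h2 h4
    change C.κ (x⁻¹⁻¹ * u⁻¹) = C.Ad x (-(ch x u))
    change C.κ (x * C.κ.symm (-(ch x u)) * x⁻¹) = C.Ad x (-(ch x u)) at h4
    rw [← h4]
    congr 1
    rw [← h2]
    conv_lhs => rw [h1]
    group

/-- J19 -/
theorem lgb : S_LGB := by
  intro G _ _ _ _ E _ _ _ C
  obtain ⟨C'⟩ := transport C (toEuclidean : E ≃L[ℝ] EuclideanSpace ℝ (Fin (Module.finrank ℝ E)))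
  obtain ⟨cs, h⟩ := exists_lieGroup C'
  exact ⟨_, cs, h⟩

end Pool.Agent.Y286.HS
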